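import Pool.Agent.TH994.TM.Int

set_option autoImplicit false

/-! # A subgroup of intermediate growth in the topological full group of the Morse subshift -/

namespace Pool.Agent.Results.MP_0e9457_al.MorseIntermediate

open Pool.Agent.Results.MP_03d093_al.SphereBall Pool.Agent.H776R2.Grig Pool.Agent.H776R2.Om
  Pool.Agent.TH994.TM

/-- The Thue-Morse substitution `0 ↦ 01`, `1 ↦ 10` on words (`false` is `0`, `true` is `1`). -/
def sub (w : List Bool) : List Bool := w.flatMap fun b => [b, !b]

/-- The Morse subshift: the bi-infinite sequences all of whose finite subwords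
`x_i x_(i+1) ... x_(i+l-1)` occur in some `σ^n(a)`. -/
def Morse : Set (ℤ → Bool) :=
  {x | ∀ (i : ℤ) (l : ℕ), ∃ (n : ℕ) (a : Bool),
    (List.ofFn fun j : Fin l => x (i + (j : ℕ))) <:+: sub^[n] [a]}

/-- The power `T^m` of the left shift `T`, `(T x)_n = x_(n+1)`. -/
def shiftPow (m : ℤ) (x : ℤ → Bool) : ℤ → Bool := fun n => x (n + m)

theorem shiftPow_mem (m : ℤ) {x : ℤ → Bool} (hx : x ∈ Morse) : shiftPow m x ∈ Morse := by
  intro i l
  obtain ⟨n, a, h⟩ := hx (i + m) l
  refine ⟨n, a, ?_⟩
  have : (fun j : Fin l => shiftPow m x (i + (j : ℕ))) = fun j : Fin l => x (i + m + (j : ℕ)) := by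
    funext j
    unfold shiftPow
    congr 1
    ring
  rw [this]
  exact h

/-- `T^m` on the Morse subshift (product topology) -/
def TT (m : ℤ) (x : Morse) : Morse := ⟨shiftPow m x.1, shiftPow_mem m x.2⟩

theorem TT_TT (m n : ℤ) (x : Morse) : TT m (TT n x) = TT (m + n) x := by
  apply Subtype.ext
  funext k
  show x.1 (k + m + n) = x.1 (k + (m + n))
  rw [add_assoc]

theorem TT_zero (x : Morse) : TT 0 x = x := by
  apply Subtype.ext
  funext k
  show x.1 (k + 0) = x.1 k
  rw [add_zero]

/-- The topological full group `[[T]]`: the homeomorphisms `g` of the Morse subshift for which there is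
a continuous `n_g` with values in `ℤ` such that `g x = T^(n_g x) x` for all `x`. -/
def fullGroup : Subgroup (Morse ≃ₜ Morse) where
  carrier := {g | ∃ n : Morse → ℤ, Continuous n ∧ ∀ x, g x = TT (n x) x}
  mul_mem' := by
    rintro g h ⟨n, hn, hg⟩ ⟨m, hm, hh⟩
    refine ⟨fun x => n (h x) + m x, (hn.comp h.continuous).add hm, fun x => ?_⟩
    rw [Homeomorph.mul_apply, hg, hh, TT_TT, ← hh]
  one_mem' := ⟨fun _ => 0, continuous_const, fun x => (TT_zero x).symm⟩
  inv_mem' := by
    rintro g ⟨n, hn, hg⟩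
    refine ⟨fun x => - n (g⁻¹ x), (hn.comp g⁻¹.continuous).neg, fun x => ?_⟩
    have h1 := hg (g⁻¹ x)
    have h2 : g (g⁻¹ x) = x := g.apply_symm_apply x
    rw [h2] at h1
    calc g⁻¹ x = TT (-(n (g⁻¹ x))) (TT (n (g⁻¹ x)) (g⁻¹ x)) := by
          rw [TT_TT, neg_add_cancel, TT_zero]
      _ = TT (-(n (g⁻¹ x))) x := by rw [← h1]

/-- The growth function of the group generated by `S`: the number of elements that are products of at
most `r` elements of `S` and their inverses. -/
noncomputable def growth {G : Type} [Group G] (S : Set G) (r : ℕ) : ℕ :=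
  Nat.card {g : G // ∃ l : List G, l.length ≤ r ∧ (∀ s ∈ l, s ∈ S ∨ s⁻¹ ∈ S) ∧ l.prod = g}

/-! ## Words -/

theorem sub_append (u v : List Bool) : sub (u ++ v) = sub u ++ sub v := by simp [sub]

theorem sub_map (N : ℕ) (a : Bool) : sub ((List.range N).map fun i => xor a (tm i)) =
    (List.range (2 * N)).map fun i => xor a (tm i) := by
  induction N with
  | zero => rfl
  | succ N ih =>
    rw [List.range_succ, List.map_append, sub_append, ih, show 2 * (N + 1) = 2 * N + 1 + 1 by ring,
      List.range_succ, List.range_succ, List.map_append, List.map_append, List.append_assoc]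
    congr 1
    simp only [sub, List.map_cons, List.map_nil, List.flatMap_cons, List.flatMap_nil, List.append_nil,
      tm_two, tm_two_one]
    cases a <;> cases tm N <;> rfl

theorem sub_iter (n : ℕ) (a : Bool) : sub^[n] [a] = (List.range (2 ^ n)).map fun i => xor a (tm i) := by
  induction n with
  | zero => simp [tm_zero]
  | succ n ih =>
    rw [Function.iterate_succ_apply', ih, sub_map, pow_succ, mul_comm]

theorem infix_of (l p N : ℕ) (a : Bool) (f : Fin l → Bool) (h : ∀ j : Fin l, f j = xor a (tm (p + j)))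
    (hp : p + l ≤ 2 ^ N) : List.ofFn f <:+: sub^[N] [a] := by
  have h1 : List.ofFn f = ((sub^[N] [a]).drop p).take l := by
    rw [sub_iter]
    apply List.ext_getElem
    · simp
      omega
    · intro i h1 h2
      simp at h1
      simp [h]
  rw [h1]
  exact (List.take_prefix _ _).isInfix.trans (List.drop_suffix _ _).isInfix

theorem of_infix (l N : ℕ) (a : Bool) (f : Fin l → Bool) (h : List.ofFn f <:+: sub^[N] [a]) :
    ∃ p, ∀ j : Fin l, f j = xor a (tm (p + j)) := by
  obtain ⟨s, t, hst⟩ := h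
  refine ⟨s.length, fun j => ?_⟩
  rw [sub_iter] at hst
  have h1 : (s ++ List.ofFn f ++ t)[s.length + (j : ℕ)]? = some (f j) := by
    rw [List.append_assoc, List.getElem?_append_right (by omega)]
    rw [List.getElem?_append_left (by simp)]
    simp
  rw [hst] at h1
  rw [List.getElem?_map] at h1
  rcases lt_or_ge (s.length + (j : ℕ)) (2 ^ N) with h2 | h2
  · rw [List.getElem?_range h2] at h1
    simpa using h1.symm
  · rw [List.getElem?_eq_none (by simpa using h2)] at h1
    simp at h1

/-! ## Windows -/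

/-- the window of radius `R` of `x` is the window of the Thue-Morse sequence around `m` -/
def AG (R : ℕ) (x : ℤ → Bool) (m : ℕ) : Prop :=
  R ≤ m ∧ ∃ c : Bool, ∀ j : ℤ, -(R : ℤ) ≤ j → j ≤ R → x j = xor c (tm ((m : ℤ) + j).toNat)

theorem exists_AG (x : Morse) (R : ℕ) : ∃ m, AG R x.1 m := by
  obtain ⟨n, a, h⟩ := x.2 (-(R : ℤ)) (2 * R + 1)
  obtain ⟨p, hp⟩ := of_infix _ _ _ _ h
  refine ⟨p + R, by omega, a, fun j h1 h2 => ?_⟩
  have h3 := hp ⟨(j + R).toNat, by omega⟩
  simp only at h3
  have e1 : -(R : ℤ) + ((j + R).toNat : ℤ) = j := by omega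
  have e2 : p + (j + R).toNat = (((p + R : ℕ) : ℤ) + j).toNat := by
    push_cast
    omega
  rw [e1, e2] at h3
  exact h3

theorem AG.mono {R R' : ℕ} (h : R' ≤ R) {x : ℤ → Bool} {m : ℕ} (hx : AG R x m) : AG R' x m := by
  obtain ⟨h1, c, h2⟩ := hx
  exact ⟨by omega, c, fun j h3 h4 => h2 j (by omega) (by omega)⟩

theorem AG.shift {R : ℕ} {x : ℤ → Bool} {m m' : ℕ} (hx : AG (R + 1) x m) (h1 : m' ≤ m + 1)
    (h2 : m ≤ m' + 1) : AG R (shiftPow ((m' : ℤ) - m) x) m' := by
  obtain ⟨h3, c, h4⟩ := hx
  refine ⟨by omega, c, fun j h5 h6 => ?_⟩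
  unfold shiftPow
  rw [h4 _ (by push_cast; omega) (by push_cast; omega)]
  congr 2
  congr 1
  ring

/-- whether `x n` and `x (n+1)` differ -/
def ed (x : ℤ → Bool) (n : ℤ) : Bool := xor (x n) (x (n + 1))

theorem AG.ed {R : ℕ} {x : ℤ → Bool} {m : ℕ} (hx : AG R x m) (n : ℤ) (h1 : -(R : ℤ) ≤ n)
    (h2 : n + 1 ≤ R) (h : ℕ) (hh : (h : ℤ) = m + n + 1) : ed x n = lv h := by
  obtain ⟨h3, c, h4⟩ := hx
  unfold MorseIntermediate.ed lv
  rw [h4 n h1 (by omega), h4 (n + 1) (by omega) h2]
  have e1 : ((m : ℤ) + n).toNat = h - 1 := by omega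
  have e2 : ((m : ℤ) + (n + 1)).toNat = h := by omega
  rw [e1, e2]
  cases c <;> cases tm (h - 1) <;> cases tm h <;> rfl

/-- whether the position `0` is the left end of a block of length two -/
def evn (x : ℤ → Bool) : Bool := !(ed x 1) || !(ed x 3)

/-- displacement of the letters `b, c, d` -/
def dispV (v : V) (x : ℤ → Bool) : ℤ :=
  if evn x then (if ok v (ed x (-1)) then -1 else 0) else (if ok v (ed x 0) then 1 else 0)

/-- displacement of a letter -/
def disp : Lt → (ℤ → Bool) → ℤ
  | .A, x => if evn x then 1 else -1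
  | .B, x => dispV .b x
  | .C, x => dispV .c x
  | .D, x => dispV .d x

theorem AG.evn {R : ℕ} (hR : 4 ≤ R) {x : ℤ → Bool} {m : ℕ} (hx : AG R x m) :
    evn x = decide (m % 2 = 0) := by
  unfold MorseIntermediate.evn
  rw [hx.ed 1 (by omega) (by omega) (m + 2) (by push_cast; ring),
    hx.ed 3 (by omega) (by omega) (m + 4) (by push_cast; ring)]
  rcases Nat.mod_two_eq_zero_or_one m with h | h
  · obtain ⟨q, rfl⟩ : ∃ q, m = 2 * q := ⟨m / 2, by omega⟩
    rw [show 2 * q + 2 = 2 * (q + 1) by ring, show 2 * q + 4 = 2 * (q + 2) by ring,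
      lv_even _ (by omega), lv_even _ (by omega)]
    rcases Nat.mod_two_eq_zero_or_one q with h2 | h2
    · obtain ⟨p, rfl⟩ : ∃ p, q = 2 * p := ⟨q / 2, by omega⟩
      rw [lv_odd]
      simp
    · obtain ⟨p, rfl⟩ : ∃ p, q = 2 * p + 1 := ⟨q / 2, by omega⟩
      rw [show 2 * p + 1 + 2 = 2 * (p + 1) + 1 by ring, lv_odd]
      simp
  · obtain ⟨q, rfl⟩ : ∃ q, m = 2 * q + 1 := ⟨m / 2, by omega⟩
    rw [show 2 * q + 1 + 2 = 2 * (q + 1) + 1 by ring, show 2 * q + 1 + 4 = 2 * (q + 2) + 1 by ring,
      lv_odd, lv_odd]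
    simp

theorem AG.disp {R : ℕ} (hR : 4 ≤ R) {x : ℤ → Bool} {m : ℕ} (hx : AG R x m) (s : Lt) :
    disp s x = (mv s m : ℤ) - m := by
  have hev := hx.evn hR
  have hm : R ≤ m := hx.1
  have key : ∀ v : V, dispV v x = (mvV v m : ℤ) - m := by
    intro v
    unfold dispV mvV
    rw [hev]
    rcases Nat.mod_two_eq_zero_or_one m with h | h
    · rw [hx.ed (-1) (by omega) (by omega) m (by ring)]
      simp only [h, decide_true, if_true]
      rw [if_neg (by omega : ¬ (0 = 1))]
      split_ifs
      · omega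
      · ring
    · rw [hx.ed 0 (by omega) (by omega) (m + 1) (by push_cast; ring)]
      simp only [h]
      rw [if_neg (by simp)]
      simp only [if_true]
      split_ifs
      · push_cast
        ring
      · ring
  cases s
  · simp only [MorseIntermediate.disp, mv, mvA]
    rw [hev]
    rcases Nat.mod_two_eq_zero_or_one m with h | h
    · simp [h]
    · simp only [h]
      norm_num
      omega
  · exact key .b
  · exact key .c
  · exact key .d

/-! ## The homeomorphisms -/

/-- the map given by a letter -/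
def act (s : Lt) (x : Morse) : Morse := TT (disp s x.1) x

theorem act_step {R : ℕ} (hR : 4 ≤ R) (s : Lt) (x : Morse) (m : ℕ) (hx : AG (R + 1) x.1 m) :
    act s x = TT ((mv s m : ℤ) - m) x ∧ AG R (act s x).1 (mv s m) := by
  have h1 : act s x = TT ((mv s m : ℤ) - m) x := by
    unfold act
    rw [hx.disp (by omega) s]
  refine ⟨h1, ?_⟩
  rw [h1]
  have h2 := mv_near s m
  exact hx.shift h2.1 h2.2

theorem act_act (s : Lt) (x : Morse) : act s (act s x) = x := by
  obtain ⟨m, hm⟩ := exists_AG x 6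
  obtain ⟨h1, h2⟩ := act_step (R := 5) (by norm_num) s x m hm
  obtain ⟨h3, _⟩ := act_step (R := 4) (by norm_num) s (act s x) (mv s m) h2
  have h4 : 6 ≤ m := hm.1
  rw [h3, h1, TT_TT, mv_mv s m (by omega)]
  rw [show (m : ℤ) - (mv s m : ℤ) + ((mv s m : ℤ) - m) = 0 by ring, TT_zero]

/-- the displacement as a function of six entries -/
def dF (s : Lt) (p : Bool × Bool × Bool × Bool × Bool × Bool) : ℤ :=
  disp s (fun n => if n = -1 then p.1 else if n = 0 then p.2.1 else if n = 1 then p.2.2.1 else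
    if n = 2 then p.2.2.2.1 else if n = 3 then p.2.2.2.2.1 else p.2.2.2.2.2)

theorem disp_eq (s : Lt) (x : ℤ → Bool) : disp s x = dF s (x (-1), x 0, x 1, x 2, x 3, x 4) := by
  cases s <;> simp [dF, disp, dispV, evn, ed]

theorem continuous_disp (s : Lt) : Continuous fun x : Morse => disp s x.1 := by
  have h : (fun x : Morse => disp s x.1) = fun x : Morse =>
      dF s (x.1 (-1), x.1 0, x.1 1, x.1 2, x.1 3, x.1 4) := by
    funext x
    exact disp_eq s x.1
  rw [h]
  have hc : ∀ n : ℤ, Continuous fun x : Morse => x.1 n := fun n =>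
    (continuous_apply n).comp continuous_subtype_val
  exact (continuous_of_discreteTopology (f := dF s)).comp
    ((hc (-1)).prodMk ((hc 0).prodMk ((hc 1).prodMk ((hc 2).prodMk ((hc 3).prodMk (hc 4))))))

theorem continuous_act (s : Lt) : Continuous (act s) := by
  have h1 : Continuous fun p : ℤ × Morse => TT p.1 p.2 := by
    rw [continuous_prod_of_discrete_left]
    intro m
    apply Continuous.subtype_mk
    apply continuous_pi
    intro n
    exact (continuous_apply (n + m)).comp continuous_subtype_val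
  exact h1.comp ((continuous_disp s).prodMk continuous_id)

/-- the homeomorphism given by a letter -/
def gh (s : Lt) : Morse ≃ₜ Morse where
  toFun := act s
  invFun := act s
  left_inv := act_act s
  right_inv := act_act s
  continuous_toFun := continuous_act s
  continuous_invFun := continuous_act s

theorem gh_apply (s : Lt) (x : Morse) : gh s x = act s x := rfl

theorem gh_inv (s : Lt) : (gh s)⁻¹ = gh s := rfl

theorem gh_mem (s : Lt) : gh s ∈ fullGroup :=
  ⟨fun x => disp s x.1, continuous_disp s, fun _ => rfl⟩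

/-- the homeomorphism given by a word -/
def evh (w : List Lt) : Morse ≃ₜ Morse := (w.map gh).prod

theorem evh_cons (s : Lt) (w : List Lt) : evh (s :: w) = gh s * evh w := by simp [evh]
theorem evh_append (v w : List Lt) : evh (v ++ w) = evh v * evh w := by simp [evh]
theorem evh_reverse (w : List Lt) : evh w.reverse = (evh w)⁻¹ := by
  induction w with
  | nil => simp [evh]
  | cons s u ih =>
    rw [List.reverse_cons, evh_append, ih, evh_cons, evh_cons, mul_inv_rev, gh_inv]
    simp [evh]

theorem evh_act {R : ℕ} (hR : 4 ≤ R) (w : List Lt) (x : Morse) (m : ℕ)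
    (hx : AG (R + w.length) x.1 m) :
    evh w x = TT ((mvW w m : ℤ) - m) x ∧ AG R (evh w x).1 (mvW w m) := by
  induction w generalizing R with
  | nil =>
    refine ⟨?_, hx⟩
    simp only [mvW, sub_self]
    rw [TT_zero]
    rfl
  | cons s w ih =>
    obtain ⟨h1, h2⟩ := ih (R := R + 1) (by omega)
      (by rw [show R + 1 + w.length = R + (s :: w).length by simp; ring]; exact hx)
    obtain ⟨h3, h4⟩ := act_step hR s (evh w x) (mvW w m) h2
    rw [evh_cons, Homeomorph.mul_apply, gh_apply]
    refine ⟨?_, h4⟩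
    rw [h3, h1, TT_TT]
    simp only [mvW]
    congr 1
    ring

/-! ## A point of the Morse subshift -/

theorem tm_add (n : ℕ) : ∀ q r : ℕ, r < 2 ^ n → tm (q * 2 ^ n + r) = xor (tm q) (tm r) := by
  induction n with
  | zero =>
    intro q r hr
    have : r = 0 := by simpa using hr
    subst this
    simp [tm_zero]
  | succ n ih =>
    intro q r hr
    rw [pow_succ] at hr
    rcases Nat.mod_two_eq_zero_or_one r with h | h
    · obtain ⟨s, rfl⟩ : ∃ s, r = 2 * s := ⟨r / 2, by omega⟩
      rw [show q * 2 ^ (n + 1) + 2 * s = 2 * (q * 2 ^ n + s) by ring, tm_two, tm_two,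
        ih q s (by omega)]
    · obtain ⟨s, rfl⟩ : ∃ s, r = 2 * s + 1 := ⟨r / 2, by omega⟩
      rw [show q * 2 ^ (n + 1) + (2 * s + 1) = 2 * (q * 2 ^ n + s) + 1 by ring, tm_two_one, tm_two_one,
        ih q s (by omega)]
      cases tm q <;> cases tm s <;> rfl

theorem tm_refl (n : ℕ) : ∀ r s : ℕ, r + s + 1 = 2 ^ n → tm r = xor (decide (n % 2 = 1)) (tm s) := by
  induction n with
  | zero =>
    intro r s h
    simp at h
    rw [h.1, h.2]
    simp
  | succ n ih =>
    intro r s h
    rw [pow_succ] at h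
    have hd : decide ((n + 1) % 2 = 1) = !decide (n % 2 = 1) := by
      rcases Nat.mod_two_eq_zero_or_one n with h1 | h1
      · simp [h1, show (n + 1) % 2 = 1 by omega]
      · simp [h1, show (n + 1) % 2 = 0 by omega]
    rw [hd]
    rcases Nat.mod_two_eq_zero_or_one r with h1 | h1
    · obtain ⟨p, rfl⟩ : ∃ p, r = 2 * p := ⟨r / 2, by omega⟩
      obtain ⟨q, rfl⟩ : ∃ q, s = 2 * q + 1 := ⟨s / 2, by omega⟩
      rw [tm_two, tm_two_one, ih p q (by omega)]
      cases decide (n % 2 = 1) <;> cases tm q <;> rfl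
    · obtain ⟨p, rfl⟩ : ∃ p, r = 2 * p + 1 := ⟨r / 2, by omega⟩
      obtain ⟨q, rfl⟩ : ∃ q, s = 2 * q := ⟨s / 2, by omega⟩
      rw [tm_two, tm_two_one, ih p q (by omega)]
      cases decide (n % 2 = 1) <;> cases tm q <;> rfl

/-- the reflected Thue-Morse sequence -/
def x0 (n : ℤ) : Bool := if 0 ≤ n then tm n.toNat else tm (-n - 1).toNat

theorem tm_five : tm 5 = false := by
  rw [show 5 = 2 * 2 + 1 by norm_num, tm_two_one, show 2 = 2 * 1 by norm_num, tm_two,
    show 1 = 2 * 0 + 1 by norm_num, tm_two_one, tm_zero]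
  rfl

theorem tm_six : tm 6 = false := by
  rw [show 6 = 2 * (2 * 1 + 1) by norm_num, tm_two, tm_two_one, show 1 = 2 * 0 + 1 by norm_num,
    tm_two_one, tm_zero]
  rfl

theorem x0_eq (k : ℕ) (n : ℤ) (h1 : -(2 ^ (2 * k) : ℤ) ≤ n) (h2 : n < 2 ^ (2 * k)) :
    x0 n = tm ((6 * 2 ^ (2 * k) : ℤ) + n).toNat := by
  have hpos : (0 : ℤ) < 2 ^ (2 * k) := by positivity
  have hcast : ((2 ^ (2 * k) : ℕ) : ℤ) = 2 ^ (2 * k) := by push_cast; rfl
  set P : ℕ := 2 ^ (2 * k) with hP
  rw [← hcast] at h1 h2 ⊢
  unfold x0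
  split_ifs with h
  · have e1 : ((6 * (P : ℤ)) + n).toNat = 6 * P + n.toNat := by omega
    rw [e1, tm_add (2 * k) 6 n.toNat (by omega), tm_six]
    simp
  · set r := (-n - 1).toNat with hr
    obtain ⟨s, hs⟩ : ∃ s, r + s + 1 = P := ⟨P - 1 - r, by omega⟩
    have e1 : ((6 * (P : ℤ)) + n).toNat = 5 * P + s := by omega
    rw [e1, tm_add (2 * k) 5 s (by omega), tm_five, tm_refl (2 * k) r s hs]
    simp

theorem x0_mem : x0 ∈ Morse := by
  intro i l
  obtain ⟨k, hk⟩ : ∃ k : ℕ, i.natAbs + l < 2 ^ (2 * k) :=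
    ⟨i.natAbs + l, lt_of_lt_of_le Nat.lt_two_pow_self (Nat.pow_le_pow_right (by norm_num) (by omega))⟩
  have hcast : ((2 ^ (2 * k) : ℕ) : ℤ) = 2 ^ (2 * k) := by push_cast; rfl
  set P : ℕ := 2 ^ (2 * k) with hP
  refine ⟨2 * k + 3, false, ?_⟩
  apply infix_of l ((6 * (P : ℤ)) + i).toNat (2 * k + 3)
  · intro j
    have hj := j.2
    rw [x0_eq k _ (by rw [← hcast]; omega) (by rw [← hcast]; omega), ← hcast]
    simp only [Bool.false_xor]
    congr 1
    omega
  · have : 2 ^ (2 * k + 3) = P * 8 := by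
      rw [pow_add, hP]
      norm_num
    rw [this]
    omega

/-- a point with prescribed window -/
def pt (m : ℕ) : Morse := ⟨shiftPow m x0, shiftPow_mem m x0_mem⟩

theorem pt_AG (m R : ℕ) (h : R ≤ m) : AG R (pt m).1 m := by
  refine ⟨h, false, fun j h1 _ => ?_⟩
  show x0 (j + m) = _
  unfold x0
  rw [if_pos (by omega)]
  simp only [Bool.false_xor]
  congr 1
  omega

/-! ## The group is the group `G_ω` -/

theorem evh_eq_one (w : List Lt) : evh w = 1 ↔ evo om w = 1 := by
  constructor
  · intro h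
    ext1 u
    obtain ⟨m, hm, hu⟩ := gc_surj u (w.length + 10)
    have hx := pt_AG m (4 + w.length) (by omega)
    obtain ⟨h1, h2⟩ := evh_act le_rfl w (pt m) m hx
    rw [h] at h1
    set d : ℤ := (mvW w m : ℤ) - m with hd
    have hnear := mvW_near w m
    have h3 : pt m = TT d (pt m) := h1
    -- the point is not periodic
    have h4 : ∀ n : ℤ, x0 (n + m) = x0 (n + d + m) := by
      intro n
      exact congrFun (congrArg Subtype.val h3) n
    have h5 : ∀ n : ℤ, x0 n = x0 (n + d) := by
      intro n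
      have := h4 (n - m)
      rw [show n - m + m = n by ring, show n - m + d + m = n + d by ring] at this
      exact this
    have hpos : ∀ e : ℕ, (∀ n : ℤ, x0 n = x0 (n + e)) → e = 0 := by
      intro e he
      apply lv_aper
      intro q hq
      have k1 := he ((q : ℤ) - 1)
      have k2 := he (q : ℤ)
      unfold x0 at k1 k2
      rw [if_pos (by omega), if_pos (by omega)] at k1 k2
      unfold lv
      rw [show q + e - 1 = ((q : ℤ) - 1 + e).toNat by omega, show q + e = ((q : ℤ) + e).toNat by omega,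
        ← k1, ← k2]
      congr 1
      · congr 1
        omega
    have hd0 : d = 0 := by
      rcases le_total 0 d with hs | hs
      · obtain ⟨e, he⟩ := Int.eq_ofNat_of_zero_le hs
        have := hpos e (by rw [← he]; exact h5)
        omega
      · obtain ⟨e, he⟩ := Int.eq_ofNat_of_zero_le (show 0 ≤ -d by omega)
        have := hpos e (fun n => by
          have := h5 (n - d)
          rw [show n - d + d = n by ring] at this
          rw [← he, ← sub_eq_add_neg]
          exact this.symm)
        omega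
    have hmv : mvW w m = m := by omega
    have h6 := gc_mvW u.length w m (by omega)
    rw [hmv, hu] at h6
    exact h6.symm
  · intro h
    ext1 x
    obtain ⟨m, hm⟩ := exists_AG x (4 + w.length)
    obtain ⟨h1, _⟩ := evh_act le_rfl w x m hm
    have hnear := mvW_near w m
    have hlt : w.length < m := by
      have := hm.1
      omega
    have hmv : mvW w m = m := by
      apply gc_inj (mvW w m + m)
      · exact lt_of_lt_of_le Nat.lt_two_pow_self (Nat.pow_le_pow_right (by norm_num) (by omega))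
      · exact lt_of_lt_of_le Nat.lt_two_pow_self (Nat.pow_le_pow_right (by norm_num) (by omega))
      · rw [gc_mvW _ _ _ hlt, h]
        rfl
    rw [h1, hmv, sub_self, TT_zero]
    rfl

theorem evh_eq_iff (w w' : List Lt) : evh w = evh w' ↔ evo om w = evo om w' := by
  have h1 := evh_eq_one (w ++ w'.reverse)
  rw [evh_append, evh_reverse, evo_append, evo_reverse, mul_inv_eq_one, mul_inv_eq_one] at h1
  exact h1

/-- the generating set -/
def gens : Set (Morse ≃ₜ Morse) := Set.range gh

theorem list_word (l : List (Morse ≃ₜ Morse)) (h : ∀ s ∈ l, s ∈ gens ∨ s⁻¹ ∈ gens) :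
    ∃ w : List Lt, w.length = l.length ∧ evh w = l.prod := by
  induction l with
  | nil => exact ⟨[], rfl, rfl⟩
  | cons g l ih =>
    obtain ⟨w, hw, hp⟩ := ih (fun s hs => h s (List.mem_cons_of_mem _ hs))
    obtain ⟨s, hs⟩ : ∃ s, gh s = g := by
      rcases h g (by simp) with ⟨s, hs⟩ | ⟨s, hs⟩
      · exact ⟨s, hs⟩
      · refine ⟨s, ?_⟩
        rw [← inv_inj, gh_inv, hs]
    refine ⟨s :: w, by simp [hw], ?_⟩
    rw [evh_cons, hs, hp, List.prod_cons]

theorem growth_eq (r : ℕ) : growth gens r = ballO om r := by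
  unfold growth ballO
  symm
  have hex : ∀ g : {g : Gom om // lenO om g ≤ r}, ∃ w : List Lt, w.length ≤ r ∧ evG om w = g.1 := by
    intro g
    obtain ⟨w, hw, hg⟩ := exists_geodo om g.1
    exact ⟨w, by rw [hw]; exact g.2, hg⟩
  choose w hw1 hw2 using hex
  let F : {g : Gom om // lenO om g ≤ r} → {g : Morse ≃ₜ Morse //
      ∃ l : List (Morse ≃ₜ Morse), l.length ≤ r ∧ (∀ s ∈ l, s ∈ gens ∨ s⁻¹ ∈ gens) ∧ l.prod = g} :=
    fun g => ⟨evh (w g), (w g).map gh, by simpa using hw1 g, by
      intro s hs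
      obtain ⟨t, -, rfl⟩ := List.mem_map.1 hs
      exact Or.inl ⟨t, rfl⟩, rfl⟩
  apply Nat.card_eq_of_bijective F
  constructor
  · intro g g' h
    have h1 : evh (w g) = evh (w g') := congrArg Subtype.val h
    rw [evh_eq_iff] at h1
    apply Subtype.ext
    rw [← hw2 g, ← hw2 g']
    exact Subtype.ext h1
  · rintro ⟨g, l, hl, hs, rfl⟩
    obtain ⟨v, hv, hp⟩ := list_word l hs
    refine ⟨⟨evG om v, (lenO_le om v).trans (by omega)⟩, ?_⟩
    apply Subtype.ext
    show evh (w _) = l.prod
    rw [← hp, evh_eq_iff]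
    exact congrArg Subtype.val (hw2 ⟨evG om v, (lenO_le om v).trans (by omega)⟩)

/-- **The topological full group of the Morse subshift contains a finitely generated subgroup of
intermediate growth.** -/
theorem result : ∃ S : Set (Morse ≃ₜ Morse), S.Finite ∧ Subgroup.closure S ≤ fullGroup ∧
    (∀ d : ℕ, ∀ᶠ r : ℕ in Filter.atTop, r ^ d ≤ growth S r) ∧
    (∀ c : ℝ, 0 < c → ∀ᶠ r : ℕ in Filter.atTop, (growth S r : ℝ) ≤ Real.exp (c * r)) := by
  refine ⟨gens, Set.finite_range gh, ?_, ?_, ?_⟩
  · rw [Subgroup.closure_le]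
    rintro _ ⟨s, rfl⟩
    exact gh_mem s
  · intro d
    filter_upwards [om_superpoly d] with r hr
    rw [growth_eq]
    exact hr
  · intro c hc
    filter_upwards [om_subexp c hc] with r hr
    rw [growth_eq]
    exact hr

end Pool.Agent.Results.MP_0e9457_al.MorseIntermediate
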